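import Mathlib

namespace Pool.Agent.MP_2634a8_co

/-- A directed cycle of a digraph: at least two distinct vertices, cyclically joined by arcs. -/
structure DiCycle {V : Type} (G : Digraph V) where
  len : ℕ
  two_le : 2 ≤ len
  vtx : ZMod len → V
  inj : Function.Injective vtx
  adj : ∀ i, G.Adj (vtx i) (vtx (i + 1))

/-- The arcs of a directed cycle. -/
def DiCycle.arcs {V : Type} {G : Digraph V} (c : DiCycle G) : Set (V × V) :=
  Set.range fun i => (c.vtx i, c.vtx (i + 1))

/-- No loops, and every in-degree and out-degree equals `k`. -/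
def IsRegularDigraph {V : Type} (G : Digraph V) (k : ℕ) : Prop :=
  (∀ v, ¬ G.Adj v v) ∧ (∀ v, {w | G.Adj v w}.ncard = k) ∧ (∀ v, {w | G.Adj w v}.ncard = k)

/-- The digraph has `t` pairwise arc-disjoint directed cycles. -/
def HasArcDisjointCycles {V : Type} (G : Digraph V) (t : ℕ) : Prop :=
  ∃ c : Fin t → DiCycle G, Pairwise fun i j => Disjoint (c i).arcs (c j).arcs

end Pool.Agent.MP_2634a8_co
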